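import Pool.Agent.Lib_MP_9828eb_ins.Cone

/-!
# Geproci sets on a smooth quadric are grids

The definitions follow the words of the problem: the points of `P³` are projected linearly to a
plane `P²`, and the projection of the set is a complete intersection of two plane curves.
-/

set_option autoImplicit false

open MvPolynomial
open scoped LinearAlgebra.Projectivization Matrix

namespace Pool.Agent.Results.MP_9828eb_ag.PlaneProjection

/-- The set `S` of points of the plane is an `(a, b)`-complete intersection: it has `a b` points and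
it is the set of all common zeros of two forms of degrees `a` and `b` without a common factor. -/
def IsCompleteIntersection (a b : ℕ) (S : Set (ℙ ℂ (Fin 3 → ℂ))) : Prop :=
  S.ncard = a * b ∧ ∃ F G : MvPolynomial (Fin 3) ℂ, F.IsHomogeneous a ∧ G.IsHomogeneous b ∧
    IsRelPrime F G ∧ ∀ w : ℙ ℂ (Fin 3 → ℂ), w ∈ S ↔ eval w.rep F = 0 ∧ eval w.rep G = 0

/-- The image of the set `Z` of points of `P³` under the linear projection `π` to the plane. -/
def image (π : (Fin 4 → ℂ) →ₗ[ℂ] (Fin 3 → ℂ)) (Z : Set (ℙ ℂ (Fin 4 → ℂ))) :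
    Set (ℙ ℂ (Fin 3 → ℂ)) :=
  {w | ∃ z ∈ Z, w.submodule = z.submodule.map π}

/-- The set `Z` is `(a, b)`-geproci: for all points `[p]` of a nonempty open set `h ≠ 0` there is a
linear projection `π` from `[p]` to the plane such that the image of `Z` is an `(a, b)`-complete
intersection. -/
def IsGeproci (a b : ℕ) (Z : Set (ℙ ℂ (Fin 4 → ℂ))) : Prop :=
  ∃ h : MvPolynomial (Fin 4) ℂ, h ≠ 0 ∧ ∀ p : Fin 4 → ℂ, p ≠ 0 → eval p h ≠ 0 →
    ∃ π : (Fin 4 → ℂ) →ₗ[ℂ] (Fin 3 → ℂ), LinearMap.ker π = Submodule.span ℂ {p} ∧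
      IsCompleteIntersection a b (image π Z)

/-- The set `Z` is the intersection of the union of `a` pairwise skew lines `L i` and the union of
`b` pairwise skew lines `M j`, where each `L i` meets each `M j`.  (Lines of `P³` are the
two-dimensional subspaces of `ℂ⁴`.) -/
def IsGridOf (a b : ℕ) (Z : Set (ℙ ℂ (Fin 4 → ℂ))) : Prop :=
  ∃ (L : Fin a → Submodule ℂ (Fin 4 → ℂ)) (M : Fin b → Submodule ℂ (Fin 4 → ℂ)),
    (∀ i, Module.finrank ℂ (L i) = 2) ∧ (∀ j, Module.finrank ℂ (M j) = 2) ∧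
    (∀ i i', i ≠ i' → L i ⊓ L i' = ⊥) ∧ (∀ j j', j ≠ j' → M j ⊓ M j' = ⊥) ∧
    (∀ i j, L i ⊓ M j ≠ ⊥) ∧
    ∀ z, z ∈ Z ↔ (∃ i, z.submodule ≤ L i) ∧ ∃ j, z.submodule ≤ M j

open Pool.Agent.GeprociIns Pool.Agent.Geproci

/-- coordinates which turn the projection into the last three coordinates -/
lemma exists_coordinates {p : Fin 4 → ℂ} (hp : p ≠ 0) {π : (Fin 4 → ℂ) →ₗ[ℂ] (Fin 3 → ℂ)}
    (hπ : LinearMap.ker π = Submodule.span ℂ {p}) :
    ∃ E : (Fin 4 → ℂ) ≃ₗ[ℂ] (Fin 4 → ℂ), E (Pi.single 0 1) = p ∧ ∀ v, tl (E.symm v) = π v := by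
  obtain ⟨φ, hφ⟩ := SeparatingDual.exists_eq_one (R := ℂ) hp
  let T : (Fin 4 → ℂ) →ₗ[ℂ] (Fin 4 → ℂ) :=
    LinearMap.pi (Fin.cons φ.toLinearMap (fun i => LinearMap.proj i ∘ₗ π))
  have hT0 : ∀ v, T v 0 = φ v := fun v => rfl
  have hT1 : ∀ v i, T v (Fin.succ i) = π v i := fun v i => rfl
  have hinj : Function.Injective T := by
    rw [injective_iff_map_eq_zero]
    intro v hv
    have h1 : π v = 0 := by
      funext i
      rw [← hT1 v i, hv]
      rfl
    have h2 : v ∈ Submodule.span ℂ {p} := by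
      rw [← hπ, LinearMap.mem_ker, h1]
    obtain ⟨c, rfl⟩ := Submodule.mem_span_singleton.1 h2
    have h3 := hT0 (c • p)
    rw [hv, map_smul, hφ] at h3
    have h4 : c = 0 := by simpa using h3.symm
    rw [h4, zero_smul]
  refine ⟨(LinearEquiv.ofInjectiveEndo T hinj).symm, ?_, ?_⟩
  · rw [LinearEquiv.symm_apply_eq]
    funext i
    refine Fin.cases ?_ (fun j => ?_) i
    · show (Pi.single 0 1 : Fin 4 → ℂ) 0 = T p 0
      rw [hT0, hφ]
      simp
    · show (Pi.single 0 1 : Fin 4 → ℂ) j.succ = T p j.succ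
      have h1 : π p = 0 := by
        rw [← LinearMap.mem_ker, hπ]
        exact Submodule.mem_span_singleton_self p
      rw [hT1, h1]
      simp [Fin.succ_ne_zero]
  · intro v
    funext i
    show (LinearEquiv.ofInjectiveEndo T hinj) v i.succ = π v i
    exact hT1 v i

/-- A quadratic form of rank four has no singular point. -/
lemma quadric {A : Matrix (Fin 4) (Fin 4) ℂ} (hA : A.IsSymm) (hdet : A.det ≠ 0) :
    ∃ q : MvPolynomial (Fin 4) ℂ, q.IsHomogeneous 2 ∧
      (∀ v : Fin 4 → ℂ, (∀ i : Fin 4, eval v (pderiv i q) = 0) → v = 0) ∧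
      ∀ v : Fin 4 → ℂ, eval v q = v ⬝ᵥ A *ᵥ v := by
  refine ⟨∑ i, ∑ j, C (A i j) * (X i * X j), ?_, ?_, ?_⟩
  · refine IsHomogeneous.sum _ _ _ fun i _ => IsHomogeneous.sum _ _ _ fun j _ => ?_
    have h1 := (isHomogeneous_C (Fin 4) (A i j)).mul
      ((isHomogeneous_X ℂ i).mul (isHomogeneous_X ℂ j))
    simpa using h1
  · intro v hv
    have h1 : A *ᵥ v = 0 := by
      funext k
      have h2 := hv k
      have h3 : eval v (pderiv k (∑ i, ∑ j, C (A i j) * (X i * X j) : MvPolynomial (Fin 4) ℂ)) =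
          2 * (A *ᵥ v) k := by
        rw [map_sum, map_sum]
        have h4 : ∀ i, eval v (pderiv k (∑ j, C (A i j) * (X i * X j) : MvPolynomial (Fin 4) ℂ)) =
            (if i = k then (A *ᵥ v) k else 0) + A i k * v i := by
          intro i
          rw [map_sum, map_sum]
          have h5 : ∀ j, eval v (pderiv k (C (A i j) * (X i * X j) : MvPolynomial (Fin 4) ℂ)) =
              (if i = k then A i j * v j else 0) + (if j = k then A i j * v i else 0) := by
            intro j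
            rw [pderiv_C_mul, Derivation.leibniz, pderiv_X, pderiv_X]
            by_cases hik : i = k <;> by_cases hjk : j = k <;> simp [hik, hjk] <;> ring
          rw [Finset.sum_congr rfl fun j _ => h5 j, Finset.sum_add_distrib, Finset.sum_ite_eq']
          by_cases hik : i = k
          · subst hik
            simp [Matrix.mulVec, dotProduct]
          · simp [hik]
        rw [Finset.sum_congr rfl fun i _ => h4 i, Finset.sum_add_distrib, Finset.sum_ite_eq']
        have h6 : ∑ i, A i k * v i = (A *ᵥ v) k := by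
          rw [Matrix.mulVec, dotProduct]
          exact Finset.sum_congr rfl fun i _ => by rw [hA.apply]
        rw [h6]
        simp
        ring
      rw [h3] at h2
      simpa using h2
    have h7 : IsUnit A := (Matrix.isUnit_iff_isUnit_det A).2 (isUnit_iff_ne_zero.2 hdet)
    have h8 := Matrix.mulVec_injective_of_isUnit h7
    apply h8
    rw [h1, Matrix.mulVec_zero]
  · intro v
    rw [map_sum, dotProduct]
    refine Finset.sum_congr rfl fun i _ => ?_
    rw [map_sum, Matrix.mulVec, dotProduct, Finset.mul_sum]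
    refine Finset.sum_congr rfl fun j _ => ?_
    rw [map_mul, map_mul, eval_C, eval_X, eval_X]
    ring

lemma rep_inj {n : ℕ} {w w' : ℙ ℂ (Fin n → ℂ)} {c : ℂ} (h : w.rep = c • w'.rep) : w = w' := by
  rw [← w.mk_rep, ← w'.mk_rep, Projectivization.mk_eq_mk_iff']
  exact ⟨c, h.symm⟩

lemma rep_mem {n : ℕ} (w : ℙ ℂ (Fin n → ℂ)) : w.rep ∈ w.submodule := by
  have h : w.submodule = Submodule.span ℂ {w.rep} := by
    conv_lhs => rw [← w.mk_rep, Projectivization.submodule_mk]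
  rw [h]
  exact Submodule.mem_span_singleton_self _

/-- the cone condition for one centre of projection -/
lemma cone {Z : Set (ℙ ℂ (Fin 4 → ℂ))} (hfin : Z.Finite) {a b : ℕ} (ha : 1 ≤ a) (hb : 1 ≤ b)
    {p : Fin 4 → ℂ} (hp : p ≠ 0) {π : (Fin 4 → ℂ) →ₗ[ℂ] (Fin 3 → ℂ)}
    (hπ : LinearMap.ker π = Submodule.span ℂ {p})
    (hCI : IsCompleteIntersection a b (image π Z)) :
    ∃ F G : MvPolynomial (Fin 4) ℂ, ∀ f : MvPolynomial (Fin 4) ℂ,
      f ∈ Ideal.span {F, G} ↔
        ∀ z ∈ hfin.toFinset, ∀ s t : ℂ, eval (s • p + t • z.rep) f = 0 := by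
  classical
  obtain ⟨E, hE, hE'⟩ := exists_coordinates hp hπ
  obtain ⟨hcard, F, G, hF, hG, hrel, hzero⟩ := hCI
  have hS : (image π Z).Finite := by
    apply Set.finite_of_ncard_ne_zero
    rw [hcard]
    exact (Nat.mul_pos ha hb).ne'
  have hmem : ∀ v ∈ hS.toFinset.image Projectivization.rep, ∃ w ∈ image π Z, w.rep = v := by
    intro v hv
    obtain ⟨w, hw, rfl⟩ := Finset.mem_image.1 hv
    exact ⟨w, hS.mem_toFinset.1 hw, rfl⟩
  have hZ0 : ∀ {P : MvPolynomial (Fin 3) ℂ} {n : ℕ}, 1 ≤ n → P.IsHomogeneous n →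
      (∀ w ∈ image π Z, eval w.rep P = 0) → ∀ z ∈ Z, eval (tl (E.symm z.rep)) P = 0 := by
    intro P n hn hP hPS z hz
    rw [hE']
    by_cases h0 : π z.rep = 0
    · have h1 := eval_smul_homog hP 0 (π z.rep)
      rw [zero_smul, zero_pow (by omega), zero_mul] at h1
      rw [h0]
      exact h1
    · obtain ⟨c, hc⟩ := Projectivization.exists_smul_eq_mk_rep ℂ (π z.rep) h0
      have h1 : Projectivization.mk ℂ (π z.rep) h0 ∈ image π Z := by
        refine ⟨z, hz, ?_⟩
        rw [Projectivization.submodule_mk]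
        conv_rhs => rw [← z.mk_rep, Projectivization.submodule_mk]
        rw [Submodule.map_span, Set.image_singleton]
      have h2 := hPS _ h1
      rw [← hc] at h2
      have h3 : eval (((c : ℂ)⁻¹) • ((c : ℂ) • π z.rep)) P = 0 := by
        rw [eval_smul_homog hP]
        have h4 : eval ((c : ℂ) • π z.rep) P = 0 := h2
        rw [h4, mul_zero]
      rwa [smul_smul, inv_mul_cancel₀ c.ne_zero, one_smul] at h3
  refine ⟨_, _, cone_ideal ha hb hF hG hrel (hS.toFinset.image Projectivization.rep) ?_ ?_ ?_ ?_ ?_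
    hfin.toFinset p E hE ?_ ?_ ?_⟩
  · intro v hv
    obtain ⟨w, -, rfl⟩ := hmem v hv
    exact w.rep_nonzero
  · intro v hv v' hv' c h
    obtain ⟨w, -, rfl⟩ := hmem v hv
    obtain ⟨w', -, rfl⟩ := hmem v' hv'
    rw [rep_inj h]
  · rw [Finset.card_image_of_injective, ← Set.ncard_eq_toFinset_card _ hS, hcard]
    intro w w' h
    exact rep_inj (c := 1) (by rw [one_smul]; exact h)
  · intro v hv
    obtain ⟨w, hw, rfl⟩ := hmem v hv
    exact ((hzero w).1 hw).1
  · intro v hv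
    obtain ⟨w, hw, rfl⟩ := hmem v hv
    exact ((hzero w).1 hw).2
  · intro v hv
    obtain ⟨w, ⟨z, hz, hwz⟩, rfl⟩ := hmem v hv
    refine ⟨z, hfin.mem_toFinset.2 hz, ?_⟩
    have h1 : w.rep ∈ z.submodule.map π := by
      rw [← hwz]
      exact rep_mem w
    obtain ⟨u, hu, hu'⟩ := h1
    have h2 : u ∈ Submodule.span ℂ {z.rep} := by
      rw [← z.mk_rep, Projectivization.submodule_mk] at hu
      simpa using hu
    obtain ⟨c, rfl⟩ := Submodule.mem_span_singleton.1 h2
    refine ⟨c, ?_⟩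
    rw [hE', ← hu', map_smul]
  · intro z hz
    exact hZ0 ha hF (fun w hw => ((hzero w).1 hw).1) z (hfin.mem_toFinset.1 hz)
  · intro z hz
    exact hZ0 hb hG (fun w hw => ((hzero w).1 hw).2) z (hfin.mem_toFinset.1 hz)

lemma isGridOf_of_isGrid {Z : Finset (ℙ ℂ (Fin 4 → ℂ))} (hne : Z.Nonempty) (h : IsGrid Z) :
    ∃ a b : ℕ, 1 ≤ a ∧ a ≤ b ∧ IsGridOf a b (Z : Set (ℙ ℂ (Fin 4 → ℂ))) := by
  obtain ⟨a, b, L, M, hL, hM, hLL, hMM, hLM, hZ⟩ := h
  have key : ∀ {a b : ℕ} {L : Fin a → Submodule ℂ (Fin 4 → ℂ)}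
      {M : Fin b → Submodule ℂ (Fin 4 → ℂ)} (i : Fin a) (j : Fin b),
      Module.finrank ℂ (↥(L i ⊓ M j)) = 1 → L i ⊓ M j ≠ ⊥ := by
    intro a b L M i j h hbot
    rw [hbot, finrank_bot] at h
    exact absurd h (by norm_num)
  have hiff : ∀ z : ℙ ℂ (Fin 4 → ℂ), z ∈ Z ↔
      (∃ i, z.submodule ≤ L i) ∧ ∃ j, z.submodule ≤ M j := by
    intro z
    rw [hZ z]
    constructor
    · rintro ⟨i, j, hij⟩
      exact ⟨⟨i, hij ▸ inf_le_left⟩, ⟨j, hij ▸ inf_le_right⟩⟩
    · rintro ⟨⟨i, hi⟩, ⟨j, hj⟩⟩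
      refine ⟨i, j, Submodule.eq_of_le_of_finrank_eq (le_inf hi hj) ?_⟩
      rw [hLM i j, z.finrank_submodule]
  obtain ⟨z, hz⟩ := hne
  obtain ⟨i, j, -⟩ := (hZ z).1 hz
  have ha : 1 ≤ a := Nat.one_le_iff_ne_zero.2 (by rintro rfl; exact i.elim0)
  have hb : 1 ≤ b := Nat.one_le_iff_ne_zero.2 (by rintro rfl; exact j.elim0)
  rcases le_total a b with hab | hab
  · exact ⟨a, b, ha, hab, L, M, hL, hM, hLL, hMM, fun i j => key i j (hLM i j), hiff⟩
  · refine ⟨b, a, hb, hab, M, L, hM, hL, hMM, hLL, fun j i => ?_, fun z => ?_⟩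
    · rw [inf_comm]
      exact key i j (hLM i j)
    · rw [Finset.mem_coe, hiff z, and_comm]

/-- Let `Z` be a finite set of points of `P³` over `ℂ` which is not contained in a plane, and let
`Z` lie on the quadric of a symmetric matrix of rank four.  If `Z` is `(a, b)`-geproci for some
`1 ≤ a ≤ b` then `Z` is a grid. -/
theorem result (Z : Set (ℙ ℂ (Fin 4 → ℂ))) (hfin : Z.Finite)
    (hnd : ∀ l : (Fin 4 → ℂ) →ₗ[ℂ] ℂ, (∀ z ∈ Z, l z.rep = 0) → l = 0)
    (hquad : ∃ A : Matrix (Fin 4) (Fin 4) ℂ, A.IsSymm ∧ A.det ≠ 0 ∧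
      ∀ z ∈ Z, z.rep ⬝ᵥ A *ᵥ z.rep = 0)
    (hgeproci : ∃ a b : ℕ, 1 ≤ a ∧ a ≤ b ∧ IsGeproci a b Z) :
    ∃ a b : ℕ, 1 ≤ a ∧ a ≤ b ∧ IsGridOf a b Z := by
  obtain ⟨a, b, ha, hab, h, hh0, hh⟩ := hgeproci
  obtain ⟨A, hA, hdet, hAZ⟩ := hquad
  obtain ⟨q, hq1, hq2, hq3⟩ := quadric hA hdet
  have hs : (⨆ z ∈ hfin.toFinset, z.submodule) = ⊤ := by
    by_contra hne
    obtain ⟨l, hl0, hl⟩ := Submodule.exists_le_ker_of_lt_top _ (lt_top_iff_ne_top.2 hne)
    apply hl0
    apply hnd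
    intro z hz
    have h1 : z.rep ∈ z.submodule := rep_mem z
    have h2 : z.submodule ≤ ⨆ z ∈ hfin.toFinset, z.submodule :=
      le_iSup₂_of_le z (hfin.mem_toFinset.2 hz) le_rfl
    exact LinearMap.mem_ker.1 (hl (h2 h1))
  have hne : hfin.toFinset.Nonempty := by
    rw [Finset.nonempty_iff_ne_empty]
    intro he
    rw [he] at hs
    simp at hs
  have hgrid := isGrid_main hfin.toFinset hs
    ⟨q, hq1, hq2, fun z hz => by rw [hq3]; exact hAZ z (hfin.mem_toFinset.1 hz)⟩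
    ⟨h, hh0, fun p hp hph => by
      obtain ⟨π, hπ, hCI⟩ := hh p hp hph
      exact cone hfin ha (ha.trans hab) hp hπ hCI⟩
  have hfinal := isGridOf_of_isGrid hne hgrid
  rwa [hfin.coe_toFinset] at hfinal

end Pool.Agent.Results.MP_9828eb_ag.PlaneProjection
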